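import Mathlib
import Pool.Agent.T6.H85.Srtd.Uniq
import Pool.Agent.T6.H85.Srtd.Growth
import Pool.Agent.T6.H85.Srtd.Num
import Pool.Agent.T6.H85.Srtd.Final

/-!
# Asymptotics of the number of sorted permutations

Idea. Call a tuple of nonempty sorted words a chain if every letter `x` of a later word can be put
in front of each earlier word without destroying sortedness. Removing the largest letter gives a
system of differential equations for the generating functions `χ_k` of chains of `k` words,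
`χ_k' = s χ_{k-1} + (s - 1) χ_k - χ_{k+1}`, `χ_0 = 1`, `χ_1 = s - 1`. It is solved by a Bessel type
kernel, which gives an integral equation for `S = ∫ s` alone. The solution blows up like
`- log (ρ - t)`. Inserting a smallest letter shows `a_{n+1} ≥ (n + 1) / 2 * a_n`, hence
`|s (w)| ≤ (1 - c) s (|w|)` off the real axis, and the Riccati type equation
`s' = s ^ 2 - s + 1 - χ_2` with small `χ_2` propagates this up to the circle of radius `ρ`: there `s`
is of the size `1 / (ρ - |w|)` only near `ρ`, where it is `~ 1 / (ρ - w)`. This gives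
`a_n ~ n! / ρ ^ (n + 1)`.
-/

set_option autoImplicit false

namespace Pool.Agent.Results.MP_92d45d_co.Asymptotics

open Filter Topology Pool.Agent.TH428.Stk

/-- `a n`, the number of sorted permutations of length `n`: the number of different words `srt π`,
where `π` runs through the permutations of `1, …, n` written as words and `srt` is the stack-sorting
map. -/
noncomputable def a (n : ℕ) : ℕ :=
  {σ : List ℕ | ∃ π : List ℕ, π.Perm (List.range' 1 n) ∧ srt π = σ}.ncard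

/-- `B v = ∑_j v ^ j / (j! (j + 1)!)`, so that `B v = I₁(2 √v) / √v` for `v > 0`. -/
noncomputable def B (v : ℝ) : ℝ := ∑' j : ℕ, v ^ j / ((j.factorial : ℝ) * ((j + 1).factorial : ℝ))

/-- `Solves ρ S`: the function `S` is continuous on `[0, ρ)`, tends to infinity at `ρ` and satisfies
`exp (w - S w) + ∫_0^w exp (t - S t) S t B (S t (w - t)) dt = 1` for all `w` in `[0, ρ)`. -/
def Solves (ρ : ℝ) (S : ℝ → ℝ) : Prop :=
  0 < ρ ∧ ContinuousOn S (Set.Ico 0 ρ) ∧ Tendsto S (𝓝[<] ρ) atTop ∧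
    ∀ w ∈ Set.Ico 0 ρ, Real.exp (w - S w) +
      ∫ t in (0 : ℝ)..w, Real.exp (t - S t) * S t * B (S t * (w - t)) = 1

theorem result : ∃ (ρ : ℝ) (S : ℝ → ℝ), Solves ρ S ∧
    (∀ (ρ' : ℝ) (S' : ℝ → ℝ), Solves ρ' S' → ρ' = ρ ∧ ∀ t ∈ Set.Ico 0 ρ, S' t = S t) ∧
    (∀ t ∈ Set.Ico 0 ρ,
      HasSum (fun n : ℕ => (a n : ℝ) * t ^ (n + 1) / ((n + 1).factorial : ℝ)) (S t)) ∧
    Tendsto (fun n : ℕ => (a n : ℝ) / ((n.factorial : ℝ) / ρ ^ (n + 1))) atTop (𝓝 1) ∧
    Tendsto (fun n : ℕ => ((a n : ℝ) / (n.factorial : ℝ)) ^ (1 / (n : ℝ))) atTop (𝓝 (1 / ρ)) ∧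
    0.6978 < 1 / ρ ∧ 1 / ρ < 0.6982 := by
  have hB : ∀ v, B v = Pool.Agent.T6.H85.Srtd.B 1 v := fun v => rfl
  have hcc : ∀ n, (a n : ℝ) / (n.factorial : ℝ) = Pool.Agent.T6.H85.Srtd.cc n := by
    intro n
    have : a n = Pool.Agent.T6.H85.Srtd.a n := rfl
    rw [this, Pool.Agent.T6.H85.Srtd.a_eq_aa]; rfl
  have h1 := Pool.Agent.T6.H85.Srtd.Tab.rho_le
  have h2 := Pool.Agent.T6.H85.Srtd.Tab.le_rho'
  have hρ := Pool.Agent.T6.H85.Srtd.rho_pos
  refine ⟨Pool.Agent.T6.H85.Srtd.rho, Pool.Agent.T6.H85.Srtd.Sf, ?_, ?_, ?_, ?_, ?_, ?_, ?_⟩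
  · refine ⟨hρ, ?_, Pool.Agent.T6.H85.Srtd.Sf_tendsto, ?_⟩
    · intro t ht
      exact (Pool.Agent.T6.H85.Srtd.Sf_deriv
        (by rw [abs_of_nonneg ht.1]; exact ht.2)).continuousAt.continuousWithinAt
    · intro w hw
      exact Pool.Agent.T6.H85.Srtd.Sf_eqAt hw.1 hw.2
  · rintro ρ' S' ⟨h3, h4, h5, h6⟩
    exact Pool.Agent.T6.H85.Srtd.sol_unique h3 h4 h6 h5
  · intro t ht
    have h3 := (Pool.Agent.T6.H85.Srtd.Sm_sc.summable (w := t)
      (by rw [Real.norm_of_nonneg ht.1]; exact ht.2)).hasSum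
    have h4 := (hasSum_nat_add_iff' 1).2 h3
    simp only [Finset.sum_range_one, Pool.Agent.T6.H85.Srtd.sc, zero_mul, sub_zero] at h4
    have h5 : Pool.Agent.T6.H85.Srtd.Sf t = ∑' n, Pool.Agent.T6.H85.Srtd.sc n * t ^ n := rfl
    rw [h5]
    refine h4.congr_fun ?_
    intro n
    rw [← hcc, Nat.factorial_succ]
    push_cast
    field_simp
  · refine Pool.Agent.T6.H85.Srtd.cc_strong.congr fun n => ?_
    rw [← hcc]
    have h3 : (0 : ℝ) < n.factorial := by positivity
    have h4 : (0 : ℝ) < Pool.Agent.T6.H85.Srtd.rho ^ (n + 1) := by positivity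
    field_simp
  · have e : (fun n : ℕ => ((a n : ℝ) / (n.factorial : ℝ)) ^ (1 / (n : ℝ))) =
        fun n => Pool.Agent.T6.H85.Srtd.cc n ^ (1 / (n : ℝ)) := by
      funext n; rw [hcc]
    rw [e, one_div]
    exact Pool.Agent.T6.H85.Srtd.cc_root
  · rw [lt_div_iff₀ hρ]
    norm_num at h1 ⊢
    linarith
  · rw [div_lt_iff₀ hρ]
    norm_num at h2 ⊢
    linarith

end Pool.Agent.Results.MP_92d45d_co.Asymptotics
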